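import Pool.Agent.H65.AD.TargetsA

/-!
NRM: the number of roots is multiplicative in the modulus (board `adm_modules`).
-/

set_option autoImplicit false

namespace Pool.Agent.H72.AD

open Pool.Agent.H65.AD Pool.Agent.H31.CN

theorem nr_mod (a j : ℕ) (A B C : ℤ) :
    ((a : ℤ) ∣ A * (j : ℤ) ^ 2 + B * j + C) ↔
      ((a : ℤ) ∣ A * ((j % a : ℕ) : ℤ) ^ 2 + B * ((j % a : ℕ) : ℤ) + C) := by
  have h : (j : ℤ) ≡ ((j % a : ℕ) : ℤ) [ZMOD a] := by
    rw [Int.natCast_mod]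
    exact (Int.mod_modEq _ _).symm
  have h1 : A * (j : ℤ) ^ 2 + B * j + C ≡
      A * ((j % a : ℕ) : ℤ) ^ 2 + B * ((j % a : ℕ) : ℤ) + C [ZMOD a] :=
    (((h.pow 2).mul_left A).add (h.mul_left B)).add_right C
  unfold Int.ModEq at h1
  rw [Int.dvd_iff_emod_eq_zero, h1, ← Int.dvd_iff_emod_eq_zero]

theorem pf_NRM : T_NRM := by
  intro a b A B C ha hb hab
  unfold nrt
  rw [← Finset.card_product]
  refine Finset.card_bij (fun j _ => (j % a, j % b)) ?_ ?_ ?_
  · intro j hj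
    rw [Finset.mem_filter, Finset.mem_range] at hj
    rw [Finset.mem_product, Finset.mem_filter, Finset.mem_filter, Finset.mem_range,
      Finset.mem_range]
    have h1 : (a : ℤ) ∣ ((a * b : ℕ) : ℤ) := by exact_mod_cast Dvd.intro b rfl
    have h2 : (b : ℤ) ∣ ((a * b : ℕ) : ℤ) := by exact_mod_cast Dvd.intro_left a rfl
    exact ⟨⟨Nat.mod_lt _ ha, (nr_mod a j A B C).1 (h1.trans hj.2)⟩,
      ⟨Nat.mod_lt _ hb, (nr_mod b j A B C).1 (h2.trans hj.2)⟩⟩
  · intro j hj j' hj' h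
    rw [Finset.mem_filter, Finset.mem_range] at hj hj'
    rw [Prod.mk.injEq] at h
    have h1 : j ≡ j' [MOD a * b] := (Nat.modEq_and_modEq_iff_modEq_mul hab).1 ⟨h.1, h.2⟩
    exact h1.eq_of_lt_of_lt hj.1 hj'.1
  · rintro ⟨x, y⟩ hxy
    rw [Finset.mem_product, Finset.mem_filter, Finset.mem_filter, Finset.mem_range,
      Finset.mem_range] at hxy
    obtain ⟨⟨hx, hx'⟩, ⟨hy, hy'⟩⟩ := hxy
    obtain ⟨j, hj1, hj2⟩ := Nat.chineseRemainder hab x y
    have hz : (j % (a * b)) % a = x := by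
      rw [Nat.mod_mul_right_mod]
      have e1 : j % a = x % a := hj1
      rw [e1]
      exact Nat.mod_eq_of_lt hx
    have hw : (j % (a * b)) % b = y := by
      rw [Nat.mod_mul_left_mod]
      have e1 : j % b = y % b := hj2
      rw [e1]
      exact Nat.mod_eq_of_lt hy
    refine ⟨j % (a * b), ?_, ?_⟩
    · rw [Finset.mem_filter, Finset.mem_range]
      refine ⟨Nat.mod_lt _ (Nat.mul_pos ha hb), ?_⟩
      have h1 : (a : ℤ) ∣ A * ((j % (a * b) : ℕ) : ℤ) ^ 2 + B * ((j % (a * b) : ℕ) : ℤ) + C := by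
        rw [nr_mod, hz]
        exact hx'
      have h2 : (b : ℤ) ∣ A * ((j % (a * b) : ℕ) : ℤ) ^ 2 + B * ((j % (a * b) : ℕ) : ℤ) + C := by
        rw [nr_mod, hw]
        exact hy'
      have h3 := IsCoprime.mul_dvd (Nat.isCoprime_iff_coprime.2 hab) h1 h2
      exact_mod_cast h3
    · exact Prod.ext hz hw

end Pool.Agent.H72.AD
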