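import Pool.Agent.H95.AD.TargetsU

/-!
Module ORT of the board adu_modules (MP_347b49_nt): the congruence in terms of additive characters.
-/

set_option autoImplicit false

open Finset
open scoped Real

namespace Pool.Agent.H72.AD

open Pool.Agent.H31.CN Pool.Agent.H95.AD

theorem ee_add (x y : ℝ) : ee (x + y) = ee x * ee y := by
  unfold ee
  rw [← Complex.exp_add]
  congr 1
  push_cast
  ring

theorem ee_nat_mul (k : ℕ) (x : ℝ) : ee (k * x) = ee x ^ k := by
  unfold ee
  rw [← Complex.exp_nat_mul]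
  congr 1
  push_cast
  ring

theorem ee_eq_one_iff (M m : ℕ) (hM : 1 ≤ M) : ee ((m : ℝ) / M) = 1 ↔ M ∣ m := by
  have hM0 : (M : ℂ) ≠ 0 := by
    have : M ≠ 0 := by omega
    exact_mod_cast this
  have hpi : (2 * (π : ℂ) * Complex.I) ≠ 0 := Complex.two_pi_I_ne_zero
  unfold ee
  rw [Complex.exp_eq_one_iff]
  constructor
  · rintro ⟨j, hj⟩
    have h1 : (((m : ℝ) / M : ℝ) : ℂ) = (j : ℂ) := by
      rw [mul_comm (j : ℂ)] at hj
      exact mul_left_cancel₀ hpi hj
    push_cast at h1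
    rw [div_eq_iff hM0] at h1
    have h2 : (m : ℤ) = j * M := by exact_mod_cast h1
    have h3 : (M : ℤ) ∣ (m : ℤ) := ⟨j, by rw [h2]; ring⟩
    exact_mod_cast h3
  · rintro ⟨j, hj⟩
    refine ⟨j, ?_⟩
    rw [hj]
    push_cast
    field_simp

/-- orthogonality of the additive characters -/
theorem sum_ee (M m : ℕ) (hM : 1 ≤ M) :
    ∑ k ∈ range M, ee ((k : ℝ) * ((m : ℝ) / M)) = if M ∣ m then (M : ℂ) else 0 := by
  simp only [ee_nat_mul]
  split_ifs with h
  · rw [(ee_eq_one_iff M m hM).2 h]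
    simp
  · have h1 : ee ((m : ℝ) / M) ≠ 1 := fun h2 => h ((ee_eq_one_iff M m hM).1 h2)
    rw [geom_sum_eq h1, ← ee_nat_mul]
    have hM0 : (M : ℝ) ≠ 0 := by
      have : M ≠ 0 := by omega
      exact_mod_cast this
    have h2 : (M : ℝ) * ((m : ℝ) / M) = ((m : ℝ) / (1 : ℕ)) := by
      rw [mul_div_cancel₀ _ hM0]
      simp
    rw [h2, (ee_eq_one_iff 1 m le_rfl).2 (one_dvd m), sub_self, zero_div]

theorem pf_ORT : T_ORT := by
  intro n A D hA
  have hA0 : (A : ℂ) ≠ 0 := by
    have : A ≠ 0 := by omega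
    exact_mod_cast this
  have hA0' : (A : ℝ) ≠ 0 := by
    have : A ≠ 0 := by omega
    exact_mod_cast this
  have h4A : 1 ≤ 4 * A := by omega
  have hR : ∑ k ∈ range (4 * A), ee ((k : ℝ) * D / (4 * A)) * gs n A k =
      ∑ B ∈ range (2 * A), ee ((n : ℝ) * B / (2 * A)) *
        (if 4 * A ∣ B ^ 2 + D then ((4 * A : ℕ) : ℂ) else 0) := by
    unfold gs
    simp only [Finset.mul_sum]
    rw [Finset.sum_comm]
    refine Finset.sum_congr rfl fun B _ => ?_
    rw [← sum_ee (4 * A) (B ^ 2 + D) h4A, Finset.mul_sum]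
    refine Finset.sum_congr rfl fun k _ => ?_
    rw [← ee_add, ← ee_add]
    congr 1
    push_cast
    field_simp
    ring
  rw [hR]
  unfold rs
  rw [Finset.sum_filter, Finset.mul_sum]
  refine Finset.sum_congr rfl fun B _ => ?_
  split_ifs with h
  · push_cast
    field_simp
  · simp

end Pool.Agent.H72.AD
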